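import Mathlib
import Pool.Agent.Helper25.UC.Core

/-!
# The VC-dimension of the `r`-neighbourhoods in unit-cube graphs of `ℝ³` is bounded

For every `r` there is a bound `f r` such that in the intersection graph of any finite family of
closed axis-parallel unit cubes in `ℝ³` the set system of the balls of radius `r` has VC-dimension at
most `f r`.

Idea of the proof.  If large sets are shattered, then we find centres `a_A` for all `M`-subsets `A`
of a huge index set and points `s_i`, such that `a_A` is within distance `r` of `s_i` exactly if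
`i ∈ A`.  For every incidence `i ∈ A` we fix a walk of `r` steps from `a_A` to `s_i`.  Two walks of
disjoint sets `A`, `A'` cannot be spliced, so at every step they are separated in one of the three
coordinates, in each of the two directions.  By Ramsey's theorem all comparisons may be assumed to
depend only on the relative positions.  Then a coordinate which separates at a step has a type, which
is the same before and after the step: it is ordered either like the centres or like the labels.  In
every step two coordinates of the same type are used; all three coordinates are centre-like at the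
beginning and label-like at the end, and there are only three of them.
-/

set_option autoImplicit false

namespace Pool.Agent.Results.MP_75f2a2_co.BoundedVC

open Finset Pool.Agent.Helper25.UC

/-- The closed axis-parallel cube of side length `1` in `ℝ³` with smallest corner `a`. -/
def unitCube (a : Fin 3 → ℝ) : Set (Fin 3 → ℝ) := Set.Icc a (fun c => a c + 1)

/-- The intersection graph of the family of cubes with smallest corners `x v`, `v ∈ V`. -/
def cubeGraph {V : Type} (x : V → Fin 3 → ℝ) : SimpleGraph V where
  Adj u v := u ≠ v ∧ (unitCube (x u) ∩ unitCube (x v)).Nonempty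
  symm := ⟨fun u v h => ⟨h.1.symm, by rw [Set.inter_comm]; exact h.2⟩⟩
  loopless := ⟨fun u h => h.1 rfl⟩

open Classical in
/-- The family of the balls `N^r[v] = {u : d(u, v) ≤ r}`, `v ∈ V`. -/
noncomputable def balls {V : Type} [Fintype V] (G : SimpleGraph V) (r : ℕ) : Finset (Finset V) :=
  univ.image (fun v => univ.filter (fun u => G.edist u v ≤ r))

open Classical in
theorem mem_balls {V : Type} [Fintype V] (G : SimpleGraph V) (r : ℕ) (S : Finset V) :
    S ∈ balls G r ↔ ∃ v, ∀ u, u ∈ S ↔ G.edist u v ≤ r := by
  unfold balls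
  rw [mem_image]
  constructor
  · rintro ⟨v, -, rfl⟩
    exact ⟨v, fun u => by simp⟩
  · rintro ⟨v, hv⟩
    exact ⟨v, mem_univ _, by ext u; simp [hv]⟩

theorem inter_iff (a b : Fin 3 → ℝ) :
    (unitCube a ∩ unitCube b).Nonempty ↔ ∀ c, |a c - b c| ≤ 1 := by
  unfold unitCube
  rw [Set.Icc_inter_Icc, Set.nonempty_Icc, Pi.le_def]
  apply forall_congr'
  intro c
  simp only [Pi.sup_apply, Pi.inf_apply, sup_le_iff, le_inf_iff, abs_le]
  constructor
  · rintro ⟨⟨h1, h2⟩, h3, h4⟩
    constructor <;> linarith
  · rintro ⟨h1, h2⟩
    refine ⟨⟨?_, ?_⟩, ?_, ?_⟩ <;> linarith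

/-- Steps of length at most one. -/
def Near {V : Type} (x : V → Fin 3 → ℝ) (u v : V) : Prop := ∀ c, |x u c - x v c| ≤ 1

theorem Near.refl {V : Type} (x : V → Fin 3 → ℝ) (u : V) : Near x u u := by
  intro c
  simp

def Reach {V : Type} (x : V → Fin 3 → ℝ) (r : ℕ) (u v : V) : Prop :=
  ∃ w : ℕ → V, w 0 = u ∧ w r = v ∧ ∀ t < r, Near x (w t) (w (t + 1))

theorem reach_iff {V : Type} (x : V → Fin 3 → ℝ) (r : ℕ) (u v : V) :
    Reach x r u v ↔ (cubeGraph x).edist u v ≤ r := by
  constructor
  · rintro ⟨w, h0, hr, hw⟩
    have : ∀ t ≤ r, (cubeGraph x).edist (w 0) (w t) ≤ t := by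
      intro t
      induction t with
      | zero => intro _; simp
      | succ t ih =>
        intro ht
        refine (SimpleGraph.edist_triangle (v := w t)).trans ?_
        have h1 := ih (by omega)
        have h2 : (cubeGraph x).edist (w t) (w (t + 1)) ≤ 1 := by
          rw [SimpleGraph.edist_le_one_iff_adj_or_eq]
          by_cases he : w t = w (t + 1)
          · exact Or.inr he
          · exact Or.inl ⟨he, (inter_iff _ _).2 (hw t (by omega))⟩
        calc _ ≤ (t : ℕ∞) + 1 := add_le_add h1 h2
          _ = ((t + 1 : ℕ) : ℕ∞) := by push_cast; rfl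
    rw [← h0, ← hr]
    exact this r le_rfl
  · intro h
    have hne : (cubeGraph x).edist u v ≠ ⊤ := by
      intro he
      rw [he, top_le_iff] at h
      exact ENat.natCast_ne_top r h
    obtain ⟨p, hp⟩ := SimpleGraph.exists_walk_of_edist_ne_top hne
    have hlen : p.length ≤ r := by
      rw [← hp] at h
      exact_mod_cast h
    refine ⟨p.getVert, p.getVert_zero, p.getVert_of_length_le hlen, ?_⟩
    intro t _
    by_cases ht : t < p.length
    · exact (inter_iff _ _).1 (p.adj_getVert_succ ht).2
    · rw [p.getVert_of_length_le (by omega), p.getVert_of_length_le (by omega)]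
      exact Near.refl x v

theorem dist_le {V : Type} (x : V → Fin 3 → ℝ) (w : ℕ → V) (r : ℕ)
    (hw : ∀ t < r, Near x (w t) (w (t + 1))) (c : Fin 3) :
    ∀ t ≤ r, |x (w t) c - x (w 0) c| ≤ t := by
  intro t
  induction t with
  | zero => intro _; simp
  | succ t ih =>
    intro ht
    have h1 := abs_le.1 (ih (by omega))
    have h2 := abs_le.1 (hw t (by omega) c)
    rw [abs_le]
    push_cast
    constructor <;> linarith [h1.1, h1.2, h2.1, h2.2]

/-- The bound for a fixed `r ≥ 1`. -/
theorem bounded_pos (r : ℕ) (hr : 1 ≤ r) : ∃ N : ℕ, ∀ (V : Type) (x : V → Fin 3 → ℝ) (s : ℕ → V)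
    (a : Finset ℕ → V), (∀ A ⊆ range N, ∀ i ∈ range N, (Reach x r (a A) (s i) ↔ i ∈ A)) →
    False := by
  classical
  obtain ⟨N, hN⟩ := core r hr
  refine ⟨N, fun V x s a H => ?_⟩
  set W : Finset ℕ → ℕ → ℕ → V := fun A i =>
    if h : Reach x r (a A) (s i) then h.choose else fun _ => a A with hW
  have hWs : ∀ A ⊆ range N, ∀ i ∈ A, W A i 0 = a A ∧ W A i r = s i ∧
      ∀ t < r, Near x (W A i t) (W A i (t + 1)) := by
    intro A hA i hi
    have h : Reach x r (a A) (s i) := (H A hA i (hA hi)).2 hi
    simp only [hW, dif_pos h]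
    exact h.choose_spec
  have hR : ∀ i ∈ range N, Reach x r (a (range N)) (s i) := fun i hi =>
    (H _ (Subset.refl _) i hi).2 hi
  have hsb : ∀ i ∈ range N, ∀ c, |x (s i) c - x (a (range N)) c| ≤ r := by
    intro i hi c
    obtain ⟨w, h0, hr', hw⟩ := hR i hi
    have := dist_le x w r hw c r le_rfl
    rwa [h0, hr'] at this
  refine hN (fun t c A i => x (W A i t) c - x (a (range N)) c)
    (fun A c => x (a A) c - x (a (range N)) c) (fun i c => x (s i) c - x (a (range N)) c)
    ?_ ?_ ?_ ?_ ?_
  · intro A hA i hi c
    rw [(hWs A hA i hi).1]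
  · intro A hA i hi c
    rw [(hWs A hA i hi).2.1]
  · intro A hA i hi t ht c
    have h1 := abs_le.1 ((hWs A hA i hi).2.2 t ht c)
    rw [abs_le]
    constructor <;> linarith [h1.1, h1.2]
  · intro A hA i hi t ht c
    obtain ⟨k0, kr, kw⟩ := hWs A hA i hi
    have h1 := abs_le.1 (dist_le x (W A i) r kw c t ht)
    have h2 := abs_le.1 (dist_le x (W A i) r kw c r le_rfl)
    rw [kr] at h2
    have h3 := abs_le.1 (hsb i (hA hi) c)
    have h4 : (t : ℝ) ≤ r := by exact_mod_cast ht
    rw [abs_le]
    constructor <;> linarith [h1.1, h1.2, h2.1, h2.2, h3.1, h3.2]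
  · intro A hA A' hA' i hi i' hi' hn t ht
    by_contra hcon
    push Not at hcon
    apply hn
    rw [← H A hA i' (hA' hi')]
    obtain ⟨k0, kr, kw⟩ := hWs A hA i hi
    obtain ⟨m0, mr, mw⟩ := hWs A' hA' i' hi'
    refine ⟨fun n => if n ≤ t then W A i n else W A' i' n, ?_, ?_, ?_⟩
    · simp only [Nat.zero_le, if_true]
      exact k0
    · simp only [not_le.2 ht, if_false]
      exact mr
    · intro n hn'
      rcases lt_trichotomy n t with h | h | h
      · simp only [h.le, if_true, Nat.succ_le_of_lt h]
        exact kw n hn'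
      · subst h
        simp only [le_refl, if_true, not_le.2 (Nat.lt_succ_self n), if_false]
        intro c
        have h5 := abs_le.1 (hcon c)
        rw [abs_le]
        constructor <;> linarith [h5.1, h5.2]
      · simp only [not_le.2 h, if_false, not_le.2 (h.trans (Nat.lt_succ_self n))]
        exact mw n hn'

/-- **The VC-dimension of the balls of radius `r` is bounded by a function of `r`** over all finite
families of closed axis-parallel unit cubes in `ℝ³`. -/
theorem result : ∃ f : ℕ → ℕ, ∀ (r : ℕ) (V : Type) [Fintype V] [DecidableEq V]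
    (x : V → Fin 3 → ℝ), (balls (cubeGraph x) r).vcDim ≤ f r := by
  classical
  have main : ∀ r : ℕ, ∃ N : ℕ, ∀ (V : Type) [Fintype V] [DecidableEq V]
      (x : V → Fin 3 → ℝ), (balls (cubeGraph x) r).vcDim ≤ N := by
    intro r
    rcases Nat.eq_zero_or_pos r with rfl | hr
    · refine ⟨1, fun V _ _ x => ?_⟩
      unfold Finset.vcDim
      refine Finset.sup_le fun S hS => ?_
      rw [mem_shatterer] at hS
      by_contra hcon
      rw [not_le, one_lt_card] at hcon
      obtain ⟨a, ha, b, hb, hab⟩ := hcon
      obtain ⟨u, hu, huS⟩ := hS (Subset.refl S)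
      obtain ⟨v, hv⟩ := (mem_balls _ _ _).1 hu
      have h1 : ∀ y ∈ S, y = v := by
        intro y hy
        rw [← huS, mem_inter, hv] at hy
        have := hy.2
        rw [Nat.cast_zero, nonpos_iff_eq_zero, SimpleGraph.edist_eq_zero_iff] at this
        exact this
      exact hab ((h1 a ha).trans (h1 b hb).symm)
    · obtain ⟨N, hN⟩ := bounded_pos r hr
      refine ⟨N, fun V _ _ x => ?_⟩
      unfold Finset.vcDim
      refine Finset.sup_le fun S hS => ?_
      rw [mem_shatterer] at hS
      by_contra hcon
      rw [not_le] at hcon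
      -- `N` points of `S`
      obtain ⟨S', hS'S, hS'c⟩ := Finset.exists_subset_card_eq hcon.le
      have hS' := hS.mono_right hS'S
      have hne : S.Nonempty := by
        rw [← Finset.card_pos]
        omega
      obtain ⟨v0, -⟩ := hne
      have e : Fin N ≃ S' := (Fintype.equivFinOfCardEq (by simpa using hS'c)).symm
      let s : ℕ → V := fun i => if h : i < N then (e ⟨i, h⟩ : V) else v0
      have hs : ∀ i (h : i < N), s i = e ⟨i, h⟩ := fun i h => by
        simp only [s, dif_pos h]
      have hsS : ∀ i, i < N → s i ∈ S' := fun i h => by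
        rw [hs i h]
        exact (e ⟨i, h⟩).2
      have hsinj : ∀ i j, i < N → j < N → s i = s j → i = j := by
        intro i j hi hj hij
        rw [hs i hi, hs j hj] at hij
        have := e.injective (Subtype.ext hij)
        exact congrArg Fin.val this
      have hex : ∀ A : Finset ℕ, ∃ v : V, ∀ i ∈ range N, (s i ∈ A.image s ∩ S' ↔
          (cubeGraph x).edist (s i) v ≤ r) := by
        intro A
        obtain ⟨u, hu, huS⟩ := hS' (t := A.image s ∩ S') inter_subset_right
        obtain ⟨v, hv⟩ := (mem_balls _ _ _).1 hu
        refine ⟨v, fun i hi => ?_⟩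
        rw [← huS, mem_inter, hv]
        have := hsS i (mem_range.1 hi)
        simp [this]
      choose a ha using hex
      refine hN V x s a fun A hA i hi => ?_
      rw [reach_iff, SimpleGraph.edist_comm, ← ha A i hi, mem_inter, mem_image]
      constructor
      · rintro ⟨⟨j, hj, hji⟩, -⟩
        have := hsinj j i (mem_range.1 (hA hj)) (mem_range.1 hi) hji
        rwa [← this]
      · intro hiA
        exact ⟨⟨i, hiA, rfl⟩, hsS i (mem_range.1 hi)⟩
  choose f hf using main
  exact ⟨f, fun r V _ _ x => hf r V x⟩

end Pool.Agent.Results.MP_75f2a2_co.BoundedVC
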